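import Pool.Agent.H.MP_722163_an.A

set_option autoImplicit false

namespace Pool.Agent.Results.MP_722163_an.Yes

/-- the relations `a b = e` and `a c = e` on the free monoid with generators `a, b, c = 0, 1, 2` -/
def rel (x y : FreeMonoid (Fin 3)) : Prop :=
  y = 1 ∧ (x = FreeMonoid.of 0 * FreeMonoid.of 1 ∨ x = FreeMonoid.of 0 * FreeMonoid.of 2)

theorem result (𝕜 : Type) [RCLike 𝕜] (E : Type*) [NormedAddCommGroup E] [NormedSpace 𝕜 E]
    [CompleteSpace E] (C : Set (StrongDual 𝕜 E))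
    (T : PresentedMonoid rel → StrongDual 𝕜 E → StrongDual 𝕜 E)
    (hne : C.Nonempty) (hconv : Convex ℝ C) (hsep : TopologicalSpace.IsSeparable C)
    (hcomp : IsCompact (StrongDual.toWeakDual '' C))
    (hmaps : ∀ s, Set.MapsTo (T s) C C)
    (hmul : ∀ s t, ∀ φ ∈ C, T (s * t) φ = T s (T t φ))
    (hnon : ∀ s, ∀ φ ∈ C, ∀ ψ ∈ C, ‖T s φ - T s ψ‖ ≤ ‖φ - ψ‖)
    (hcont : ∀ s, ContinuousOn
      (fun ω => StrongDual.toWeakDual (T s (StrongDual.toWeakDual.symm ω)))
      (StrongDual.toWeakDual '' C)) :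
    ∃ φ ∈ C, ∀ s, T s φ = φ := by
  have e : StrongDual.toWeakDual '' C = C := Set.image_id C
  rw [e] at hcomp hcont
  let j : WeakDual 𝕜 E →ₗ[ℝ] StrongDual 𝕜 E := ⟨⟨fun ω => ω, fun _ _ => rfl⟩, fun _ _ => rfl⟩
  refine Pool.Agent.H.MP_722163_an.main (W := WeakDual 𝕜 E) (V := StrongDual 𝕜 E)
    (PresentedMonoid.of rel 0) (PresentedMonoid.of rel 1) (PresentedMonoid.of rel 2)
    (PresentedMonoid.mk_eq_mk_of_rel (rels := rel) ⟨rfl, Or.inl rfl⟩)
    (PresentedMonoid.mk_eq_mk_of_rel (rels := rel) ⟨rfl, Or.inr rfl⟩) ?_ j (fun _ _ h => h)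
    (fun v r => WeakDual.isClosed_closedBall v r) C T hne hconv ?_ hcomp hmaps hmul ?_ hcont
  · rw [← PresentedMonoid.closure_range_of rel]
    congr 1
    ext x
    simp only [Set.mem_insert_iff, Set.mem_singleton_iff, Set.mem_range, Fin.exists_fin_succ,
      IsEmpty.exists_iff, or_false, eq_comm (a := x)]
    rfl
  · have : j '' C = C := Set.image_id C
    rw [this]; exact hsep
  · intro s x hx y hy
    rw [dist_eq_norm, dist_eq_norm]
    exact hnon s x hx y hy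

end Pool.Agent.Results.MP_722163_an.Yes
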